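import Pool.Agent.Y48.TW.Explicit

/-!
# 3-wise `s`-intersecting and `t`-intersecting families: the threshold is linear in `s`

The two properties are incompatible for all `t ≥ 22321 s`, and they are not incompatible for
`1 ≤ t ≤ s`. So the least threshold `t₀(s)` in the question of Frankl and Kupavskii satisfies
`s < t₀(s) ≤ 22321 s` for every `s ≥ 1`.
-/

set_option autoImplicit false

namespace Pool.Agent.Results.MP_f9e676_co.LinearThreshold

open Pool.Agent.H122R3.TW Pool.Agent.Y48.TW

/-- `F` is 3-wise `s`-intersecting: `|A ∩ B ∩ C| ≥ s` for all `A, B, C ∈ F`. -/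
def ThreeWiseIntersecting (s : ℕ) (F : Finset (Finset ℕ)) : Prop :=
  ∀ A ∈ F, ∀ B ∈ F, ∀ C ∈ F, s ≤ (A ∩ B ∩ C).card

/-- `F` is `t`-intersecting: `|A ∩ B| ≥ t` for all `A, B ∈ F`. -/
def Intersecting (t : ℕ) (F : Finset (Finset ℕ)) : Prop :=
  ∀ A ∈ F, ∀ B ∈ F, t ≤ (A ∩ B).card

/-- The maximum of `w(F) = |F| / 2 ^ n` over all families `F` of subsets of the `n`-element
set `{0, ..., n - 1}` which have the property `P`. -/
noncomputable def maxDensity (P : Finset (Finset ℕ) → Prop) (n : ℕ) : ℝ :=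
  sSup {x : ℝ | ∃ F : Finset (Finset ℕ), F ⊆ (Finset.range n).powerset ∧ P F ∧
    x = (F.card : ℝ) / 2 ^ n}

/-- `a_s(n)` -/
noncomputable def a (s n : ℕ) : ℝ := maxDensity (ThreeWiseIntersecting s) n

/-- `b_t(n)` -/
noncomputable def b (t n : ℕ) : ℝ := maxDensity (Intersecting t) n

/-- `c_{s,t}(n)` -/
noncomputable def c (s t n : ℕ) : ℝ :=
  maxDensity (fun F => ThreeWiseIntersecting s F ∧ Intersecting t F) n

lemma maxDensity_eq (P : Finset (Finset ℕ) → Prop) (h0 : P ∅) (n : ℕ) :
    maxDensity P n = (mx P n : ℝ) / 2 ^ n := by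
  apply IsGreatest.csSup_eq
  constructor
  · obtain ⟨F, hF, hP, hc⟩ := exists_mx P n h0
    exact ⟨F, hF, hP, by rw [hc]⟩
  · rintro x ⟨F, hF, hP, rfl⟩
    have h := le_mx P n F hF hP
    have h2 : (F.card : ℝ) ≤ mx P n := by exact_mod_cast h
    exact div_le_div_of_nonneg_right h2 (by positivity)

/-- For every `s ≥ 1`: the properties of being 3-wise `s`-intersecting and `t`-intersecting are
incompatible for all `t ≥ 22321 s`, and they are not incompatible for `1 ≤ t ≤ s`. -/
theorem result : ∀ s : ℕ, 1 ≤ s →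
    (∀ t : ℕ, 22321 * s ≤ t →
      Filter.liminf (fun n : ℕ => a s n * b t n) Filter.atTop =
        Filter.liminf (fun n : ℕ => c s t n) Filter.atTop) ∧
    (∀ t : ℕ, 1 ≤ t → t ≤ s →
      Filter.liminf (fun n : ℕ => a s n * b t n) Filter.atTop <
        Filter.liminf (fun n : ℕ => c s t n) Filter.atTop) := by
  intro s hs
  have ea : ∀ n, a s n = (mx (ThreeWise s) n : ℝ) / 2 ^ n := fun n =>
    maxDensity_eq _ (threeWise_empty s) n
  have eb : ∀ t n, b t n = (mx (PairWise t) n : ℝ) / 2 ^ n := fun t n =>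
    maxDensity_eq _ (pairWise_empty t) n
  have ec : ∀ t n, c s t n = (mx (fun F => ThreeWise s F ∧ PairWise t F) n : ℝ) / 2 ^ n :=
    fun t n => maxDensity_eq _ (both_empty s t) n
  have hab : ∀ t, 1 ≤ t → Filter.Tendsto (fun n : ℕ => a s n * b t n) Filter.atTop
      (nhds (((mx (ThreeWise s) (9 * s) : ℝ) / 2 ^ (9 * s)) * (1 / 2))) := by
    intro t ht
    simp only [ea, eb]
    exact limit_ab s hs t ht
  constructor
  · intro t ht
    have h1 := hab t (by omega)
    have h2 : Filter.Tendsto (fun n : ℕ => c s t n) Filter.atTop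
        (nhds (((mx (ThreeWise s) (9 * s) : ℝ) / 2 ^ (9 * s)) * (1 / 2))) := by
      simp only [ec]
      exact limit_c s hs t ht
    rw [h1.liminf_eq, h2.liminf_eq]
  · intro t ht hts
    have h1 := hab t ht
    have h2 : Filter.Tendsto (fun n : ℕ => c s t n) Filter.atTop
        (nhds ((mx (ThreeWise s) (9 * s) : ℝ) / 2 ^ (9 * s))) := by
      simp only [ec]
      exact limit_c_small s hs t hts
    have h3 := alpha_pos s hs
    rw [h1.liminf_eq, h2.liminf_eq]
    linarith

end Pool.Agent.Results.MP_f9e676_co.LinearThreshold
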